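import Pool.Agent.P.MP_8b4774_co.RepH

set_option autoImplicit false

open Pool.Agent.P.MP_8b4774_co in
theorem Pool.Agent.Results.MP_8b4774_co.ChairFree.result :
    ∀ k : ℕ, 2 ≤ k → ∀ (V : Type) [Fintype V] (G : SimpleGraph V), G.Connected →
      IsEmpty (spider (fun _ => k) ↪g G) → IsEmpty (genNet (fun _ => k) ↪g G) →
      ∃ D : Finset V, IsConnDistDom G (k - 1) D ∧
        (∀ D' : Finset V, IsConnDistDom G (k - 1) D' → D.card ≤ D'.card) ∧
        IsEmpty (spider ![1, 1, 2] ↪g G.induce (D : Set V)) ∧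
        IsEmpty (genNet ![1, 1, 2] ↪g G.induce (D : Set V)) :=
  Pool.Agent.P.MP_8b4774_co.Rep.repaired
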